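import Pool.Agent.N625.GW.D
import Pool.Agent.N625.DY.N

set_option autoImplicit false

/-! Walks in graphs whose edges carry digits: several random integers. -/

namespace Pool.Agent.N625.GW
open Finset
open Pool.Agent.N625.DY (SmallT NearT cls_chowla)

open Classical in
/-- from probabilities to numbers, for several sets -/
lemma unif_count {s : ℕ} (R S : Fin s → Finset ℕ) (hS : ∀ i, S i ⊆ R i) (hpos : ∀ i, 0 < (S i).card) (Q : (Fin s → ℕ) → Prop) (x : ℝ)
    (h : ∑ v ∈ Fintype.piFinset R,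
      (if Q v then 0 else ∏ i, (if v i ∈ S i then 1 / ((S i).card : ℝ) else 0)) ≤ x) :
    (((Fintype.piFinset S).filter fun v => ¬ Q v).card : ℝ) ≤ (Fintype.piFinset S).card * x := by
  obtain ⟨F, hF⟩ : ∃ F, F = Fintype.piFinset S := ⟨_, rfl⟩
  have hpos' : ∀ i, (0 : ℝ) < (S i).card := fun i => by exact_mod_cast hpos i
  have hFc : (F.card : ℝ) = ∏ i, ((S i).card : ℝ) := by
    rw [hF, Fintype.card_piFinset]
    push_cast
    rfl
  have hFpos : (0 : ℝ) < F.card := by rw [hFc]; exact prod_pos fun i _ => hpos' i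
  rw [← hF]
  have h2 : ((F.filter fun v => ¬ Q v).card : ℝ) / F.card ≤ x := by
    refine le_trans ?_ h
    rw [← mul_one_div, ← nsmul_eq_mul, ← sum_const]
    have hsub : F.filter (fun v => ¬ Q v) ⊆ Fintype.piFinset R := by
      intro v hv
      rw [mem_filter, hF, Fintype.mem_piFinset] at hv
      rw [Fintype.mem_piFinset]
      exact fun i => hS i (hv.1 i)
    refine le_trans (le_of_eq ?_) (sum_le_sum_of_subset_of_nonneg hsub ?_)
    · apply sum_congr rfl
      intro v hv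
      rw [mem_filter, hF, Fintype.mem_piFinset] at hv
      rw [if_neg hv.2, hFc, one_div, ← prod_inv_distrib]
      apply prod_congr rfl
      intro i _
      rw [if_pos (hv.1 i), one_div]
    · intro v _ _
      have hn : 0 ≤ ∏ i, (if v i ∈ S i then 1 / ((S i).card : ℝ) else 0) := by
        apply prod_nonneg
        intro i _
        split_ifs
        · exact (one_div_pos.2 (hpos' i)).le
        · exact le_rfl
      by_cases hQ : Q v
      · rw [if_pos hQ]
      · rw [if_neg hQ]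
        exact hn
  rwa [div_le_iff₀ hFpos, mul_comm] at h2

open Classical in
/-- correlations of the Liouville function with several shifts given by walks -/
theorem w_chowla (s b : ℕ) (X : Fin s → Type) (δ : ∀ i, X i → ℕ → Option (X i)) (hG : ∀ i, Graph b (δ i)) (x : ∀ i, X i)
    (ρ : Fin s → ℝ) (hρ : ∀ i, 0 < ρ i) (hR : ∀ i, Rho b (δ i) (x i) (ρ i)) (D : ℕ) (κ : Fin s → ℤ) (hκ : ∀ i, κ i ≠ 0)
    (B T W U : ℕ) :
    ∃ k₀ : ℕ, ∀ k : ℕ, k₀ ≤ k → ∀ y : ∀ i, X i, (∀ i, ρ i ^ k ≤ (k : ℝ) ^ D * (walks b (δ i) k (x i) (y i)).card) →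
      ∀ c : Fin s → ℤ, (∀ i, |c i| ≤ B * (b : ℤ) ^ k) →
      ∀ L : ℕ, (L : ℝ) ≤ (k : ℝ) ^ T → ∀ (a : Fin s → ℕ) (θ : Fin L → ℕ → ℂ), (∀ j, 1 ≤ a j) → (∀ l n, ‖θ l n‖ ≤ 1) →
      (((Fintype.piFinset fun i => walks b (δ i) k (x i) (y i)).filter fun v =>
        ¬ NearT W k (SmallT B U (b ^ k) k a θ) (fun i => c i + κ i * (v i : ℕ))).card : ℝ) ≤
        (Fintype.piFinset fun i => walks b (δ i) k (x i) (y i)).card / (k : ℝ) ^ U := by
  obtain ⟨k₀, h0⟩ := cls_chowla s b κ (fun i => WC b (δ i) (x i) (ρ i) D)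
    (fun i => w_cls (hG i) (x i) (ρ i) (hρ i) (hR i) D (κ i) (hκ i)) B T W U
  refine ⟨k₀, fun k hk y hy c hc L hL a θ ha hθ => ?_⟩
  have h1 := h0 k hk (fun i v => if v ∈ walks b (δ i) k (x i) (y i) then 1 / ((walks b (δ i) k (x i) (y i)).card : ℝ) else 0)
    (fun i => ⟨y i, hy i, rfl⟩) c hc L hL a θ ha hθ
  have h2 := unif_count (fun _ => range (b ^ k)) (fun i => walks b (δ i) k (x i) (y i)) (fun i => w_sub _ _ _)
    (fun i => card_pos' (hρ i) (hy i)) _ _ h1
  rw [mul_one_div] at h2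
  exact h2

end Pool.Agent.N625.GW
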