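import Pool.Agent.N625.GW.E
import Pool.Agent.N625.DY.G

set_option autoImplicit false

/-! Walks in graphs whose edges carry digits: prime tuples. -/

namespace Pool.Agent.N625.GW
open Finset
open Pool.Agent.W93.TD (HLs)
open Pool.Agent.N625.DY (Kc cls_one)

open Classical in
/-- the formula of Hardy and Littlewood for almost all vectors of walks -/
theorem w_tuples (s : ℕ) (hs : 1 ≤ s) (b : Fin s → ℕ) (X : Fin s → Type) (δ : ∀ i, X i → ℕ → Option (X i))
    (hG : ∀ i, Graph (b i) (δ i)) (x : ∀ i, X i) (ρ : Fin s → ℝ) (hρ : ∀ i, 0 < ρ i) (hR : ∀ i, Rho (b i) (δ i) (x i) (ρ i))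
    (D : ℕ) (κ : Fin s → ℕ) (hκ : ∀ i, 1 ≤ κ i) (B U : ℕ) (ε : ℝ) (hε : 0 < ε) :
    ∃ N₀ : ℕ, ∀ N, N₀ ≤ N → ∀ k : Fin s → ℕ, (∀ i, b i ^ k i ≤ B * N ∧ N ≤ B * b i ^ k i) →
      ∀ y : ∀ i, X i, (∀ i, ρ i ^ k i ≤ (k i : ℝ) ^ D * (walks (b i) (δ i) (k i) (x i) (y i)).card) →
      ∀ c : Fin s → ℕ, (∀ i, c i ≤ B * N) →
      (((Fintype.piFinset fun i => walks (b i) (δ i) (k i) (x i) (y i)).filter fun v =>
        ¬ HLs ε U N (fun i => c i + κ i * v i)).card : ℝ) ≤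
        (Fintype.piFinset fun i => walks (b i) (δ i) (k i) (x i) (y i)).card / Real.log N ^ U := by
  obtain ⟨N₀, h⟩ := Pool.Agent.N469.PT.ws_final s hs (fun i => Kc (b i) B (WC (b i) (δ i) (x i) (ρ i) D)) κ hκ B U ε hε
    (fun i => cls_one (κ i) (w_cls (hG i) (x i) (ρ i) (hρ i) (hR i) D (κ i : ℤ) (by exact_mod_cast (by have := hκ i; omega : κ i ≠ 0))) B B _)
  refine ⟨N₀, fun N hN k hk y hy c hc => ?_⟩
  have h1 := h N hN (fun i => range (b i ^ k i)) (fun i v => if v ∈ walks (b i) (δ i) (k i) (x i) (y i) then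
      1 / ((walks (b i) (δ i) (k i) (x i) (y i)).card : ℝ) else 0)
    (fun i => ⟨k i, (hk i).1, (hk i).2, ⟨y i, hy i, rfl⟩, rfl⟩) c hc
  have h2 := unif_count (fun i => range (b i ^ k i)) (fun i => walks (b i) (δ i) (k i) (x i) (y i)) (fun i => w_sub _ _ _)
    (fun i => card_pos' (hρ i) (hy i)) (fun v => HLs ε U N (fun i => c i + κ i * v i)) (1 / Real.log N ^ U) (by
      refine le_trans (le_of_eq ?_) h1
      apply sum_congr rfl
      intro v _
      by_cases hv : HLs ε U N (fun i => c i + κ i * v i)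
      · rw [if_pos hv, if_neg (not_not.2 hv)]
      · rw [if_neg hv, if_pos hv])
  rw [mul_one_div] at h2
  exact h2

end Pool.Agent.N625.GW
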